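import Mathlib
import Pool.Agent.R344.LS.AF
import Pool.Agent.H723R2.LSWDens

/-!
Masses of the levels over the single cycles of the `3x+1` map on the integers (helper26).
-/

set_option autoImplicit false

namespace Pool.Agent.R26.CM

open Filter Topology
open Pool.Agent.H499R2.ND (Td Dn Inv HD Ci IsRep dens_side HD_ncard HD_compl HD_unique tail_le
  one_pos structure_full)
open Pool.Agent.R344.LS hiding Ci
open Pool.Agent.H499R2.LT (dn_side)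

/-- periodic orbits -/
def PO (C : Set ℤ) : Prop := ∃ x : ℤ, Per x ∧ C = {z : ℤ | ∃ i : ℕ, (Td 1)^[i] x = z}

/-- basin -/
def basin (C : Set ℤ) : Set ℤ := {x : ℤ | ∃ k : ℕ, (Td 1)^[k] x ∈ C}

theorem PO.finite {C : Set ℤ} (h : PO C) : C.Finite := by
  obtain ⟨x, hx, rfl⟩ := h
  obtain ⟨p, hp, hx⟩ := hx
  have hfix : ∀ m : ℕ, (Td 1)^[p * m] x = x := fun m => by
    rw [Function.iterate_mul]; exact Function.iterate_fixed hx m
  apply ((Finset.range p).image fun i => (Td 1)^[i] x).finite_toSet.subset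
  rintro z ⟨i, rfl⟩
  simp only [Finset.coe_image, Finset.coe_range, Set.mem_image, Set.mem_Iio]
  refine ⟨i % p, Nat.mod_lt _ (by omega), ?_⟩
  conv_rhs => rw [← Nat.mod_add_div i p, Function.iterate_add_apply, hfix]

theorem PO.step {C : Set ℤ} (h : PO C) {z : ℤ} (hz : z ∈ C) : Td 1 z ∈ C := by
  obtain ⟨x, hx, rfl⟩ := h
  obtain ⟨i, rfl⟩ := hz
  exact ⟨i + 1, by rw [Function.iterate_succ_apply']⟩

theorem PO.iter {C : Set ℤ} (h : PO C) {z : ℤ} (hz : z ∈ C) (k : ℕ) : (Td 1)^[k] z ∈ C := by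
  induction k with
  | zero => exact hz
  | succ k ih => rw [Function.iterate_succ_apply']; exact h.step ih

theorem PO.eq_orbit {C : Set ℤ} (h : PO C) {z : ℤ} (hz : z ∈ C) :
    C = {w : ℤ | ∃ i : ℕ, (Td 1)^[i] z = w} := by
  apply Set.Subset.antisymm
  · obtain ⟨x, hx, rfl⟩ := h
    obtain ⟨i, rfl⟩ := hz
    obtain ⟨p, hp, hx⟩ := hx
    have hfix : ∀ m : ℕ, (Td 1)^[p * m] x = x := fun m => by
      rw [Function.iterate_mul]; exact Function.iterate_fixed hx m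
    rintro w ⟨j, rfl⟩
    refine ⟨j + (p * i - i), ?_⟩
    have hle : i ≤ p * i := Nat.le_mul_of_pos_left i (by omega)
    rw [← Function.iterate_add_apply, show j + (p * i - i) + i = j + p * i by omega,
      Function.iterate_add_apply, hfix]
  · rintro w ⟨i, rfl⟩
    exact h.iter hz i

theorem PO.per {C : Set ℤ} (h : PO C) {z : ℤ} (hz : z ∈ C) : Per z := by
  obtain ⟨x, hx, rfl⟩ := h
  obtain ⟨i, rfl⟩ := hz
  obtain ⟨p, hp, hx⟩ := hx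
  refine ⟨p, hp, ?_⟩
  rw [← Function.iterate_add_apply, add_comm, Function.iterate_add_apply, hx]

theorem po_of_per {x : ℤ} (hx : Per x) : PO {z : ℤ | ∃ i : ℕ, (Td 1)^[i] x = z} := ⟨x, hx, rfl⟩

theorem PO.unique {C C' : Set ℤ} (h : PO C) (h' : PO C') {x : ℤ} (hx : x ∈ basin C)
    (hx' : x ∈ basin C') : C = C' := by
  obtain ⟨k, hk⟩ := hx
  obtain ⟨l, hl⟩ := hx'
  have h1 := h.iter hk l
  have h2 := h'.iter hl k
  rw [← Function.iterate_add_apply] at h1 h2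
  rw [add_comm] at h2
  rw [h.eq_orbit h1, h'.eq_orbit h2]

theorem PO.inv {C : Set ℤ} (h : PO C) : Inv 1 (basin C) := by
  intro x
  constructor
  · rintro ⟨k, hk⟩
    refine ⟨k, ?_⟩
    rw [← Function.iterate_succ_apply, Function.iterate_succ_apply']
    exact h.step hk
  · rintro ⟨k, hk⟩
    exact ⟨k + 1, by rw [Function.iterate_succ_apply]; exact hk⟩

theorem iter_zero (k : ℕ) : (Td 1)^[k] 0 = 0 := by
  apply Function.iterate_fixed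
  rfl

theorem PO.zero_not_mem {C : Set ℤ} (h : PO C) (h0 : C ≠ {0}) : (0 : ℤ) ∉ C := by
  intro hz
  apply h0
  rw [h.eq_orbit hz]
  ext w
  simp only [iter_zero, exists_const, Set.mem_ofPred_eq, Set.mem_singleton_iff]
  exact eq_comm

/-- `Ci`-invariance from `Td 1`-invariance -/
theorem inv_ci {S : Set ℤ} (h : Inv 1 S) (x : ℤ) : x ∈ S ↔ Ci x ∈ S := by
  have hk : ∀ k : ℕ, ∀ y : ℤ, y ∈ S ↔ (Td 1)^[k] y ∈ S := by
    intro k
    induction k with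
    | zero => intro y; rfl
    | succ k ih => intro y; rw [h y, ih (Td 1 y), Function.iterate_succ_apply]
  obtain ⟨i, j, hij⟩ := Pool.Agent.H723R2.LSW.mer_Ci x
  have hij' : (Td 1)^[i] x = (Td 1)^[j] (Ci x) := hij
  rw [hk i x, hij', ← hk j]

/-- the density of `S` from a weight function of the classes -/
noncomputable def Ds (s : ℤ) (δ : ℤ → ℝ) (S : Set ℤ) : ℝ := ∑' a : {a : ℤ // IsRep s a ∧ a ∈ S}, δ a

/-- the weights of the classes of sign `s` -/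
structure Wt (s : ℤ) (δ : ℤ → ℝ) : Prop where
  hs : s = 1 ∨ s = -1
  pos : ∀ a : ℤ, 0 < s * a → 0 < δ a
  dens : ∀ S : Set ℤ, Inv 1 S → HD s S (Ds s δ S)
  sum : HasSum (fun a : {a : ℤ // IsRep s a} => δ a) 1

theorem exists_wt {s : ℤ} (hs : s = 1 ∨ s = -1) : ∃ δ : ℤ → ℝ, Wt s δ := by
  obtain ⟨δ, h1, h2, h3⟩ := structure_full hs
  refine ⟨δ, hs, fun a ha => (h1 a ha).1, fun S hS => ?_, h3⟩
  obtain ⟨l, _, _, hl⟩ := dens_side odd_one isCoprime_one_left hs hS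
  have h4 := HD_ncard hs hl
  have h5 := h2 S (inv_ci hS)
  have : l = Ds s δ S := tendsto_nhds_unique h4 h5
  rw [← this]
  exact hl

theorem Wt.nonneg {s : ℤ} {δ : ℤ → ℝ} (h : Wt s δ) (S : Set ℤ) : 0 ≤ Ds s δ S :=
  tsum_nonneg fun a => (h.pos a a.2.1.1).le

theorem Wt.summable {s : ℤ} {δ : ℤ → ℝ} (h : Wt s δ) (S : Set ℤ) :
    Summable (fun a : {a : ℤ // IsRep s a ∧ a ∈ S} => δ a) := by
  have h1 := h.sum.summable
  have h2 := h1.comp_injective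
    (i := fun a : {a : ℤ // IsRep s a ∧ a ∈ S} => (⟨a.1, a.2.1⟩ : {a : ℤ // IsRep s a}))
    (fun a b hab => Subtype.ext (by
      have h := congrArg Subtype.val hab
      exact h))
  exact h2

/-- countable additivity over a set of cycles -/
theorem Wt.hasSum {s : ℤ} {δ : ℤ → ℝ} (h : Wt s δ) (𝒞 : Set (Set ℤ)) (h𝒞 : ∀ C ∈ 𝒞, PO C) :
    HasSum (fun C : 𝒞 => Ds s δ (basin C)) (Ds s δ {x | ∃ C ∈ 𝒞, x ∈ basin C}) := by
  classical
  set U : Set ℤ := {x | ∃ C ∈ 𝒞, x ∈ basin C} with hU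
  have h1 : HasSum (fun a : {a : ℤ // IsRep s a ∧ a ∈ U} => δ a) (Ds s δ U) := (h.summable U).hasSum
  choose! c hc1 hc2 using fun (x : ℤ) (hx : x ∈ U) => hx
  let g : {a : ℤ // IsRep s a ∧ a ∈ U} → 𝒞 := fun a => ⟨c a, hc1 a a.2.2⟩
  have h2 := h1.tsum_fiberwise g
  have h3 : (fun C : 𝒞 => Ds s δ (basin C)) =
      fun C : 𝒞 => ∑' b : (g ⁻¹' {C} : Set {a : ℤ // IsRep s a ∧ a ∈ U}), δ (b : {a : ℤ // IsRep s a ∧ a ∈ U}) := by
    funext C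
    let e : {a : ℤ // IsRep s a ∧ a ∈ basin C} ≃ (g ⁻¹' {C} : Set {a : ℤ // IsRep s a ∧ a ∈ U}) :=
      { toFun := fun a => ⟨⟨a.1, a.2.1, C.1, C.2, a.2.2⟩, by
          have hU' : a.1 ∈ U := ⟨C.1, C.2, a.2.2⟩
          show g _ = C
          apply Subtype.ext
          exact (h𝒞 _ (hc1 a.1 hU')).unique (h𝒞 C.1 C.2) (hc2 a.1 hU') a.2.2⟩
        invFun := fun b => ⟨b.1.1, b.1.2.1, by
          have hb : g b.1 = C := b.2
          have hb' : c b.1.1 = C.1 := congrArg Subtype.val hb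
          have := hc2 b.1.1 b.1.2.2
          rwa [hb'] at this⟩
        left_inv := fun a => rfl
        right_inv := fun b => rfl }
    exact e.tsum_eq (fun b : (g ⁻¹' {C} : Set {a : ℤ // IsRep s a ∧ a ∈ U}) =>
      δ ((b : {a : ℤ // IsRep s a ∧ a ∈ U}) : ℤ))
  rw [h3]
  exact h2

theorem Ds_congr (s : ℤ) (δ : ℤ → ℝ) {U V : Set ℤ} (h : ∀ a, IsRep s a → (a ∈ U ↔ a ∈ V)) :
    Ds s δ U = Ds s δ V := by
  have hset : {a : ℤ | IsRep s a ∧ a ∈ U} = {a : ℤ | IsRep s a ∧ a ∈ V} := by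
    ext a
    simp only [Set.mem_ofPred_eq]
    constructor
    · rintro ⟨h1, h2⟩; exact ⟨h1, (h a h1).1 h2⟩
    · rintro ⟨h1, h2⟩; exact ⟨h1, (h a h1).2 h2⟩
  exact tsum_congr_set_coe (fun a => δ a) hset

theorem IsRep.ne_zero {s a : ℤ} (h : IsRep s a) : a ≠ 0 := by
  rintro rfl
  have := h.1
  simp at this

theorem mem_all_iff {a : ℤ} (ha : a ≠ 0) :
    (∃ C ∈ {C : Set ℤ | PO C ∧ C ≠ {0}}, a ∈ basin C) ↔ ¬ Dv a := by
  constructor
  · rintro ⟨C, ⟨hC, _⟩, k, hk⟩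
    exact not_Dv_of_per (hC.per hk)
  · intro h
    obtain ⟨k, hk⟩ := per_of_not_Dv h
    refine ⟨_, ⟨po_of_per hk, ?_⟩, k, ⟨0, rfl⟩⟩
    intro he
    have h1 : (Td 1)^[k] a ∈ {z : ℤ | ∃ i : ℕ, (Td 1)^[i] ((Td 1)^[k] a) = z} := ⟨0, rfl⟩
    rw [he] at h1
    exact Td_iter_ne ha k h1

/-- the total weight of the cycles -/
theorem Wt.total {s : ℤ} {δ : ℤ → ℝ} (h : Wt s δ) {d : ℝ} (hd : HD s {x | Dv x} d) :
    Ds s δ {x | ∃ C ∈ {C : Set ℤ | PO C ∧ C ≠ {0}}, x ∈ basin C} = 1 - d := by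
  have h1 : HD s {x : ℤ | Dv x}ᶜ (Ds s δ {x : ℤ | Dv x}ᶜ) := h.dens _ Dv_inv.compl
  have h2 := HD_compl hd h1
  have h3 : Ds s δ {x | ∃ C ∈ {C : Set ℤ | PO C ∧ C ≠ {0}}, x ∈ basin C} = Ds s δ {x : ℤ | Dv x}ᶜ :=
    Ds_congr s δ fun a ha => by
      rw [Set.mem_ofPred_eq, mem_all_iff (IsRep.ne_zero ha)]
      rfl
  rw [h3]
  linarith

/-- the law of the levels over a cycle -/
def Law (C : Set ℤ) (hC : C.Finite) (m : ℝ) : Prop :=
  (∀ k : ℕ, Summable (fun x : LZ 1 hC.toFinset k => (1 : ℝ) / |((x : ℤ) : ℝ)|)) ∧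
  Tendsto (fun k : ℕ => ∑' x : LZ 1 hC.toFinset k, (1 : ℝ) / |((x : ℤ) : ℝ)|) atTop (𝓝 m) ∧
  Tendsto (fun k : ℕ => ∑ o ∈ Finset.range (k + 1),
    |∑' x : {x : ℤ | x ≠ 0 ∧ (FH 1 hC.toFinset k x ∧ Pool.Agent.H499R2.LT.od 1 k x = o)},
      (1 : ℝ) / |((x : ℤ) : ℝ)| - m * ((k.choose o : ℝ) / 2 ^ k)|) atTop (𝓝 0)

theorem main : ∃ d₁ d₂ : ℝ, HD 1 {x | Dv x} d₁ ∧ HD (-1) {x | Dv x} d₂ ∧
    (d₁ = 0 ↔ ∀ x : ℤ, 0 < x → ¬ Dv x) ∧ (d₂ = 0 ↔ ∀ x : ℤ, x < 0 → ¬ Dv x) ∧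
    ∃ μ : Set ℤ → ℝ, (∀ C, PO C → C ≠ {0} → 0 < μ C) ∧
      (∀ C (h : PO C), C ≠ {0} → Law C h.finite (μ C)) ∧
      (∀ C, PO C → ∃ b₁ b₂ : ℝ, HD 1 (basin C) b₁ ∧ HD (-1) (basin C) b₂ ∧
        μ C = Real.log (4 / 3) / 2 * (b₁ + b₂)) ∧
      HasSum (fun C : {C : Set ℤ | PO C ∧ C ≠ {0}} => μ C) (Real.log (4 / 3) * (1 - (d₁ + d₂) / 2)) ∧
      (∀ B : ℕ, ∃ K : ℝ, 0 < K ∧ ∀ y : ℕ, 2 ≤ y →
        ∑' C : {C : Set ℤ | PO C ∧ ∀ m : ℤ, |m| ≤ y → ∀ k : ℕ, (Td 1)^[k] m ∉ C}, μ C ≤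
          K / Real.log y ^ B) := by
  obtain ⟨δ, hw⟩ := exists_wt (s := 1) (Or.inl rfl)
  obtain ⟨δ', hw'⟩ := exists_wt (s := -1) (Or.inr rfl)
  obtain ⟨d₁, _, hd₁, hz₁, _⟩ := one_side (s := 1) (Or.inl rfl)
  obtain ⟨d₂, _, hd₂, hz₂, _⟩ := one_side (s := -1) (Or.inr rfl)
  have hl := log43_pos
  have hz₁' : d₁ = 0 ↔ ∀ x : ℤ, 0 < x → ¬ Dv x := by simpa only [one_mul] using hz₁
  have hz₂' : d₂ = 0 ↔ ∀ x : ℤ, x < 0 → ¬ Dv x := by
    rw [hz₂]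
    constructor
    · intro h x hx; exact h x (by omega)
    · intro h x hx; exact h x (by omega)
  refine ⟨d₁, d₂, hd₁, hd₂, hz₁', hz₂',
    fun C => Real.log (4 / 3) / 2 * (Ds 1 δ (basin C) + Ds (-1) δ' (basin C)), ?_, ?_,
    fun C hC => ⟨_, _, hw.dens _ hC.inv, hw'.dens _ hC.inv, rfl⟩, ?_, ?_⟩
  · intro C hC h0
    have h00 := hC.zero_not_mem h0
    obtain ⟨x, hx, hCx⟩ := hC
    have hxC : x ∈ C := by rw [hCx]; exact ⟨0, rfl⟩
    have hx0 : x ≠ 0 := fun h => h00 (h ▸ hxC)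
    have hC : PO C := ⟨x, hx, hCx⟩
    have hb : x ∈ basin C := ⟨0, hxC⟩
    rcases lt_or_gt_of_ne hx0 with hneg | hpos
    · have h1 := one_pos (s := -1) (Or.inr rfl) hC.inv hb (by omega) (hw'.dens _ hC.inv)
      have h2 := hw.nonneg (basin C)
      positivity
    · have h1 := one_pos (s := 1) (Or.inl rfl) hC.inv hb (by omega) (hw.dens _ hC.inv)
      have h2 := hw'.nonneg (basin C)
      positivity
  · intro C hC h0
    obtain ⟨δ₁, δ₂, h1, h2, h3, h4, h5⟩ := both_line odd_one not_dvd_one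
      hC.finite.toFinset
    have g1 : Dn (fun n : ℕ => (1 : ℤ) * (n : ℤ) ∈ basin C) (Ds 1 δ (basin C)) :=
      dn_side (hw.dens _ hC.inv)
    have g2 : Dn (fun n : ℕ => (-1 : ℤ) * (n : ℤ) ∈ basin C) (Ds (-1) δ' (basin C)) :=
      dn_side (hw'.dens _ hC.inv)
    simp only [Set.Finite.mem_toFinset] at h1 h2
    have e1 : δ₁ = Ds 1 δ (basin C) := tendsto_nhds_unique h1 g1
    have e2 : δ₂ = Ds (-1) δ' (basin C) := tendsto_nhds_unique h2 g2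
    show Law C hC.finite (Real.log (4 / 3) / 2 * (Ds 1 δ (basin C) + Ds (-1) δ' (basin C)))
    rw [← e1, ← e2]
    exact ⟨h3, h4, h5⟩
  · have k1 := hw.hasSum {C : Set ℤ | PO C ∧ C ≠ {0}} (fun C hC => hC.1)
    have k2 := hw'.hasSum {C : Set ℤ | PO C ∧ C ≠ {0}} (fun C hC => hC.1)
    rw [hw.total hd₁] at k1
    rw [hw'.total hd₂] at k2
    have k3 := (k1.add k2).mul_left (Real.log (4 / 3) / 2)
    have e : Real.log (4 / 3) * (1 - (d₁ + d₂) / 2) =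
        Real.log (4 / 3) / 2 * ((1 - d₁) + (1 - d₂)) := by ring
    rw [e]
    exact k3
  · intro B
    obtain ⟨K₁, hK₁, t1⟩ := tail_le B odd_one not_dvd_one (s := 1) (Or.inl rfl)
    obtain ⟨K₂, hK₂, t2⟩ := tail_le B odd_one not_dvd_one (s := -1) (Or.inr rfl)
    refine ⟨Real.log (4 / 3) / 2 * (K₁ + K₂), by positivity, fun y hy => ?_⟩
    set 𝒞 : Set (Set ℤ) := {C : Set ℤ | PO C ∧ ∀ m : ℤ, |m| ≤ y → ∀ k : ℕ, (Td 1)^[k] m ∉ C} with h𝒞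
    have k1 := hw.hasSum 𝒞 (fun C hC => hC.1)
    have k2 := hw'.hasSum 𝒞 (fun C hC => hC.1)
    set U : Set ℤ := {x | ∃ C ∈ 𝒞, x ∈ basin C} with hU
    have hinv : Inv 1 U := by
      intro x
      constructor
      · rintro ⟨C, hC, hx⟩
        exact ⟨C, hC, (hC.1.inv x).1 hx⟩
      · rintro ⟨C, hC, hx⟩
        exact ⟨C, hC, (hC.1.inv x).2 hx⟩
    have hlarge : ∀ x ∈ U, (y : ℝ) < |(x : ℝ)| := by
      rintro x ⟨C, hC, k, hk⟩
      by_contra hc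
      rw [not_lt] at hc
      exact hC.2 x (by exact_mod_cast hc) k hk
    have hy' : (2 : ℝ) ≤ y := by exact_mod_cast hy
    have b1 := t1 y hy' U hinv hlarge _ (hw.dens U hinv)
    have b2 := t2 y hy' U hinv hlarge _ (hw'.dens U hinv)
    have k3 := ((k1.add k2).mul_left (Real.log (4 / 3) / 2)).tsum_eq
    calc ∑' C : 𝒞, Real.log (4 / 3) / 2 * (Ds 1 δ (basin C) + Ds (-1) δ' (basin C)) =
        Real.log (4 / 3) / 2 * (Ds 1 δ U + Ds (-1) δ' U) := k3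
      _ ≤ Real.log (4 / 3) / 2 * (K₁ / Real.log y ^ B + K₂ / Real.log y ^ B) := by
        apply mul_le_mul_of_nonneg_left (add_le_add b1 b2) (by positivity)
      _ = Real.log (4 / 3) / 2 * (K₁ + K₂) / Real.log y ^ B := by ring

end Pool.Agent.R26.CM
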